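import Pool.Agent.H45.SHA.Stmts

/-!
# SHA, module DET: divisibility of determinants
-/

set_option autoImplicit false

namespace Pool.SHA

open Finset

/-- few exponents of degree `< D`: an injective family of exponents has large total degree -/
private lemma det_deg {r m D : ℕ} (φ : Fin m → (Fin r →₀ ℕ)) (hφ : Function.Injective φ) :
    D * (m - D ^ r) ≤ ∑ n, ∑ j, φ n j := by
  classical
  have h1 : (univ.filter fun n : Fin m => ¬ D ≤ ∑ j, φ n j).card ≤ D ^ r := by
    have h2 : (univ.filter fun n : Fin m => ¬ D ≤ ∑ j, φ n j).card ≤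
        (Fintype.piFinset fun _ : Fin r => range D).card := by
      refine card_le_card_of_injOn (fun n j => φ n j) ?_ ?_
      · intro n hn
        simp only [coe_filter, mem_univ, true_and, not_le, Set.mem_ofPred_eq] at hn
        simp only [Finset.mem_coe, Fintype.mem_piFinset, mem_range]
        intro j
        exact lt_of_le_of_lt (single_le_sum (f := fun j => φ n j) (fun _ _ => Nat.zero_le _)
          (mem_univ j)) hn
      · intro a _ b _ hab
        apply hφ
        ext j
        exact congrFun hab j
    rw [Fintype.card_piFinset_const, card_range] at h2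
    exact h2
  have h3 : (univ.filter fun n : Fin m => D ≤ ∑ j, φ n j).card +
      (univ.filter fun n : Fin m => ¬ D ≤ ∑ j, φ n j).card = m := by
    rw [card_filter_add_card_filter_not, card_univ, Fintype.card_fin]
  calc D * (m - D ^ r) ≤ D * (univ.filter fun n : Fin m => D ≤ ∑ j, φ n j).card :=
        Nat.mul_le_mul_left _ (by omega)
    _ = ∑ _n ∈ univ.filter (fun n : Fin m => D ≤ ∑ j, φ n j), D := by
        rw [sum_const, smul_eq_mul, mul_comm]
    _ ≤ ∑ n ∈ univ.filter (fun n : Fin m => D ≤ ∑ j, φ n j), ∑ j, φ n j :=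
        sum_le_sum fun n hn => (mem_filter.1 hn).2
    _ ≤ ∑ n, ∑ j, φ n j :=
        sum_le_sum_of_subset (filter_subset _ _)

/-- DET -/
theorem det_thm : S_DET := by
  classical
  intro r m D P G y0 z
  obtain ⟨H, hH⟩ : ∃ H : Fin m → MvPolynomial (Fin r) ℤ,
      H = fun i => MvPolynomial.aeval (fun j => MvPolynomial.C (y0 j) + MvPolynomial.X j) (G i) :=
    ⟨_, rfl⟩
  obtain ⟨S, hS⟩ : ∃ S : Finset (Fin r →₀ ℕ), S = univ.biUnion fun i => (H i).support := ⟨_, rfl⟩
  have hev : ∀ n i, MvPolynomial.eval (fun j => y0 j + P * z n j) (G i) =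
      ∑ α ∈ S, (P ^ (∑ j, α j) * ∏ j, z n j ^ α j) * MvPolynomial.coeff α (H i) := by
    intro n i
    have h1 : MvPolynomial.eval (fun j => y0 j + P * z n j) (G i) =
        MvPolynomial.eval (fun j => P * z n j) (H i) := by
      rw [hH]
      simp only [MvPolynomial.aeval_def, MvPolynomial.eval₂_eq_eval_map]
      rw [← MvPolynomial.eval₂_eq_eval_map]
      rw [← MvPolynomial.coe_eval₂Hom, ← RingHom.comp_apply]
      refine congrFun (congrArg _ ?_) (G i)
      refine MvPolynomial.ringHom_ext ?_ ?_
      · intro a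
        simp
      · intro j
        simp
    rw [h1, MvPolynomial.eval_eq']
    have h2 : (H i).support ⊆ S := by
      rw [hS]
      exact subset_biUnion_of_mem (fun i => (H i).support) (mem_univ i)
    rw [sum_subset h2 (f := fun α => MvPolynomial.coeff α (H i) * ∏ j, (P * z n j) ^ α j)]
    · refine sum_congr rfl fun α _ => ?_
      simp only [mul_pow, prod_mul_distrib, prod_pow_eq_pow_sum]
      ring
    · intro α _ hα
      rw [MvPolynomial.notMem_support_iff.1 hα, zero_mul]
  have hrow : (Matrix.of fun n i : Fin m => MvPolynomial.eval (fun j => y0 j + P * z n j) (G i)) =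
      fun n => ∑ α ∈ S, (P ^ (∑ j, α j) * ∏ j, z n j ^ α j) •
        (fun i => MvPolynomial.coeff α (H i)) := by
    funext n i
    rw [Matrix.of_apply, hev n i, Finset.sum_apply]
    rfl
  rw [hrow]
  change _ ∣ (Matrix.detRowAlternating (R := ℤ) (n := Fin m)).toMultilinearMap
    (fun n => ∑ α ∈ S, (P ^ (∑ j, α j) * ∏ j, z n j ^ α j) •
        (fun i => MvPolynomial.coeff α (H i)))
  rw [MultilinearMap.map_sum_finset]
  refine dvd_sum fun φ _ => ?_
  rw [MultilinearMap.map_smul_univ, AlternatingMap.coe_multilinearMap]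
  by_cases hφ : Function.Injective φ
  · refine Dvd.dvd.mul_right ?_ _
    rw [prod_mul_distrib, prod_pow_eq_pow_sum]
    exact Dvd.dvd.mul_right (pow_dvd_pow _ (det_deg φ hφ)) _
  · rw [AlternatingMap.map_eq_zero_of_not_injective, smul_zero]
    · exact dvd_zero _
    · intro h
      exact hφ fun a b hab => h (by simp only [hab])

end Pool.SHA
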