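import Pool.Agent.H45.SHA.Stmts

/-!
# SHA, module SOL: solving the toric relation for one variable
-/

set_option autoImplicit false

namespace Pool.SHA

open Finset

/-- solving in a group of exponent `q` -/
private lemma sol_grp {G ι : Type*} [CommGroup G] [Fintype ι] [DecidableEq ι] (u : ι → G)
    (ξ : ι → ℕ) (J : Finset ι) (j0 : ι) (hj : j0 ∈ J) (q g l : ℕ) (hq : 1 ≤ q)
    (hu : ∀ j, u j ^ q = 1) (hg : ξ j0 * g = 1 + q * l)
    (hrel : ∏ j ∈ J, u j ^ ξ j = ∏ j ∈ Jᶜ, u j ^ ξ j) :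
    u j0 = ∏ j ∈ univ.erase j0, u j ^ (if j ∈ J then ξ j * g * (q - 1) else ξ j * g) := by
  have h1 : univ.erase j0 = J.erase j0 ∪ Jᶜ := by
    ext j
    simp only [mem_erase, mem_univ, and_true, mem_union, mem_compl, ne_eq]
    by_cases h : j = j0
    · subst h; simp [hj]
    · simp only [h, not_false_eq_true, true_and, true_iff]; exact em _
  have h2 : Disjoint (J.erase j0) Jᶜ := by
    rw [Finset.disjoint_left]
    intro a ha hb
    exact (mem_compl.1 hb) (mem_of_mem_erase ha)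
  have h3 : ∏ j ∈ J.erase j0, u j ^ (if j ∈ J then ξ j * g * (q - 1) else ξ j * g) =
      (∏ j ∈ J.erase j0, u j ^ ξ j) ^ (g * (q - 1)) := by
    rw [← prod_pow]
    refine prod_congr rfl fun j hj' => ?_
    rw [if_pos (mem_of_mem_erase hj'), ← pow_mul, mul_assoc]
  have h4 : ∏ j ∈ Jᶜ, u j ^ (if j ∈ J then ξ j * g * (q - 1) else ξ j * g) =
      (∏ j ∈ Jᶜ, u j ^ ξ j) ^ g := by
    rw [← prod_pow]
    refine prod_congr rfl fun j hj' => ?_
    rw [if_neg (mem_compl.1 hj'), ← pow_mul]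
  have h5 : (∏ j ∈ J.erase j0, u j ^ ξ j) ^ q = 1 := by
    rw [← prod_pow]
    refine prod_eq_one fun j _ => ?_
    rw [← pow_mul, mul_comm, pow_mul, hu, one_pow]
  have h6 : g * (q - 1) + g = q * g := by
    obtain ⟨q', rfl⟩ : ∃ q', q = q' + 1 := ⟨q - 1, by omega⟩
    rw [Nat.add_sub_cancel]
    ring
  rw [h1, prod_union h2, h3, h4, ← hrel, ← mul_prod_erase J _ hj, mul_pow, mul_left_comm,
    ← pow_add, h6, pow_mul (∏ j ∈ J.erase j0, u j ^ ξ j), h5, one_pow, mul_one, ← pow_mul, hg,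
    pow_add, pow_one, pow_mul, hu, one_pow, mul_one]

/-- lifting the exponent -/
private lemma sol_lte {p t v f : ℕ} (hp : p.Prime) (hf : 1 ≤ f) (hf2 : p = 2 → 2 ≤ f) {A A0 : ℤ}
    (h1 : (p : ℤ) ^ f ∣ A - A0) (h2 : ¬ (p : ℤ) ∣ A)
    (h3 : (p : ℤ) ^ v ∣ A ^ (p ^ t) - A0 ^ (p ^ t)) : (p : ℤ) ^ (v - t) ∣ A - A0 := by
  have key : emultiplicity (p : ℤ) (A ^ (p ^ t) - A0 ^ (p ^ t)) =
      emultiplicity (p : ℤ) (A - A0) + t := by
    rcases hp.eq_two_or_odd' with h | h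
    · subst h
      have h4 : (4 : ℤ) ∣ A - A0 := by
        refine dvd_trans ?_ h1
        have : (4 : ℤ) = ((2 : ℕ) : ℤ) ^ 2 := by norm_num
        rw [this]
        exact pow_dvd_pow _ (hf2 rfl)
      have h5 := Int.two_pow_sub_pow' (2 ^ t) h4 (by exact_mod_cast h2)
      have h6 : emultiplicity (2 : ℤ) ((2 ^ t : ℕ) : ℤ) = t := by
        have := emultiplicity_pow_self_of_prime (α := ℤ) Int.prime_two t
        push_cast
        exact this
      push_cast at h5 h6 ⊢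
      rw [h5, h6]
    · have h4 : (p : ℤ) ∣ A - A0 := dvd_trans (dvd_pow_self _ (by omega)) h1
      rw [Int.emultiplicity_pow_sub_pow hp h h4 h2 (p ^ t), Nat.Prime.emultiplicity_pow_self hp]
  rw [pow_dvd_iff_le_emultiplicity, key] at h3
  rw [pow_dvd_iff_le_emultiplicity, ENat.natCast_sub, tsub_le_iff_right]
  exact h3

/-- the inverse of a number prime to `p` modulo `p ^ w` -/
private lemma sol_inv {p : ℕ} (hp : p.Prime) (w a : ℕ) (ha : ¬ p ∣ a) :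
    ∃ g l : ℕ, a * g = 1 + p ^ w * l := by
  rcases Nat.eq_zero_or_pos w with h | h
  · subst h
    refine ⟨1, a - 1, ?_⟩
    have : 0 < a := Nat.pos_of_ne_zero fun h => ha (h ▸ dvd_zero p)
    rw [pow_zero]
    omega
  · have h1 : Nat.Coprime a (p ^ w) :=
      Nat.Coprime.pow_right _ ((hp.coprime_iff_not_dvd.2 ha).symm)
    obtain ⟨g, -, hg⟩ := Nat.exists_mul_mod_eq_one_of_coprime h1 (Nat.one_lt_pow h.ne' hp.one_lt)
    refine ⟨g, a * g / p ^ w, ?_⟩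
    have := Nat.div_add_mod (a * g) (p ^ w)
    omega

/-- SOL -/
theorem sol_thm : S_SOL := by
  intro k p f v J ξ y0 hp hf hf2 hξ hy0
  classical
  obtain ⟨j0, -, hj0⟩ := exists_min_image (univ : Finset (Fin (k + 1)))
    (fun j => (ξ j).factorization p) ⟨0, mem_univ _⟩
  obtain ⟨t, ht⟩ : ∃ t, t = (ξ j0).factorization p := ⟨_, rfl⟩
  have hdiv : ∀ j, p ^ t ∣ ξ j := fun j =>
    (hp.pow_dvd_iff_le_factorization (by have := hξ j; omega)).2 (ht ▸ hj0 j (mem_univ _))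
  choose ξ' hξ' using hdiv
  have hcop : ¬ p ∣ ξ' j0 := by
    rintro ⟨a, ha⟩
    have h1 : p ^ (t + 1) ∣ ξ j0 := ⟨a, by rw [hξ' j0, ha, pow_succ]; ring⟩
    have h2 := (hp.pow_dvd_iff_le_factorization (by have := hξ j0; omega)).1 h1
    omega
  obtain ⟨w, hw⟩ : ∃ w, w = v - t := ⟨_, rfl⟩
  obtain ⟨q, hq⟩ : ∃ q, q = p ^ w := ⟨_, rfl⟩
  have hq1 : 1 ≤ q := hq ▸ Nat.one_le_pow _ _ hp.pos
  obtain ⟨g, l, hg⟩ := sol_inv hp w (ξ' j0) hcop
  rw [← hq] at hg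
  obtain ⟨J', hJ', hJJ⟩ : ∃ J' : Finset (Fin (k + 1)), j0 ∈ J' ∧ (J' = J ∨ J' = Jᶜ) := by
    by_cases h : j0 ∈ J
    · exact ⟨J, h, Or.inl rfl⟩
    · exact ⟨Jᶜ, mem_compl.2 h, Or.inr rfl⟩
  have hpz : Prime (p : ℤ) := Nat.prime_iff_prime_int.1 hp
  have hunit : ∀ y : ℤ, ¬ (p : ℤ) ∣ y → IsUnit ((y : ZMod q)) := by
    intro y hy
    rw [ZMod.coe_int_isUnit_iff_isCoprime, hq]
    push_cast
    exact IsCoprime.pow_left ((Prime.coprime_iff_not_dvd hpz).2 hy)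
  choose β hβ using fun j => hunit (y0 j) (hy0 j)
  obtain ⟨n, hn⟩ : ∃ n : Fin (k + 1) → ℕ,
      n = fun j => if j ∈ J' then ξ' j * g * (q - 1) else ξ' j * g := ⟨_, rfl⟩
  obtain ⟨c, hc⟩ := ZMod.intCast_surjective
    (((β j0 * ∏ j ∈ univ.erase j0, (β j)⁻¹ ^ n j : (ZMod q)ˣ)) : ZMod q)
  refine ⟨j0, n, c, t, ⟨ξ' j0, hξ' j0⟩, fun y hy hR => ?_⟩
  rw [← hw, ← hq, ← ZMod.intCast_eq_intCast_iff]
  have hpy : ∀ j, (p : ℤ) ∣ y j - y0 j := fun j => dvd_trans (dvd_pow_self _ (by omega)) (hy j)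
  have hy1 : ∀ j, ¬ (p : ℤ) ∣ y j := by
    intro j h
    apply hy0 j
    have := dvd_sub h (hpy j)
    rwa [sub_sub_cancel] at this
  choose α hα using fun j => hunit (y j) (hy1 j)
  -- the relation modulo `p ^ w`
  obtain ⟨A, hA⟩ : ∃ A : ℤ, A = (∏ j ∈ J, y j ^ ξ' j) * ∏ j ∈ Jᶜ, y0 j ^ ξ' j := ⟨_, rfl⟩
  obtain ⟨A0, hA0⟩ : ∃ A0 : ℤ, A0 = (∏ j ∈ Jᶜ, y j ^ ξ' j) * ∏ j ∈ J, y0 j ^ ξ' j := ⟨_, rfl⟩
  have hpw : ∀ (y : Fin (k + 1) → ℤ) (J : Finset (Fin (k + 1))),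
      (∏ j ∈ J, y j ^ ξ' j) ^ (p ^ t) = ∏ j ∈ J, y j ^ ξ j := by
    intro y J
    rw [← prod_pow]
    refine prod_congr rfl fun j _ => ?_
    rw [← pow_mul, hξ' j, mul_comm]
  have hlte : (p : ℤ) ^ (v - t) ∣ A - A0 := by
    refine sol_lte hp hf hf2 ?_ ?_ ?_
    · have hc1 : ∀ j, y j ≡ y0 j [ZMOD ((p : ℤ) ^ f)] := fun j =>
        (Int.modEq_iff_dvd.2 (by have := hy j; rwa [← dvd_neg, neg_sub] at this))
      have h1 : ∀ J : Finset (Fin (k + 1)), ∏ j ∈ J, y j ^ ξ' j ≡ ∏ j ∈ J, y0 j ^ ξ' j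
          [ZMOD ((p : ℤ) ^ f)] := by
        intro J
        induction J using Finset.induction_on with
        | empty => simp
        | insert a s ha ih =>
          rw [prod_insert ha, prod_insert ha]
          exact Int.ModEq.mul ((hc1 a).pow _) ih
      have h2 : A0 ≡ A [ZMOD ((p : ℤ) ^ f)] := by
        rw [hA, hA0]
        have h3 := (h1 Jᶜ).mul (Int.ModEq.refl (n := (p : ℤ) ^ f) (∏ j ∈ J, y0 j ^ ξ' j))
        have h4 := (h1 J).symm.mul (Int.ModEq.refl (n := (p : ℤ) ^ f) (∏ j ∈ Jᶜ, y0 j ^ ξ' j))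
        refine h3.trans ?_
        rw [mul_comm]
        exact h4
      exact Int.modEq_iff_dvd.1 h2
    · rw [hA]
      intro h
      rcases hpz.dvd_or_dvd h with h | h
      · obtain ⟨j, -, hj⟩ := (Prime.dvd_finsetProd_iff hpz _).1 h
        exact hy1 j (hpz.dvd_of_dvd_pow hj)
      · obtain ⟨j, -, hj⟩ := (Prime.dvd_finsetProd_iff hpz _).1 h
        exact hy0 j (hpz.dvd_of_dvd_pow hj)
    · rw [hA, hA0, mul_pow, mul_pow, hpw, hpw, hpw, hpw]
      have := Int.modEq_iff_dvd.1 hR.symm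
      push_cast at this
      exact this
  have hAA : (A : ZMod q) = (A0 : ZMod q) := by
    rw [ZMod.intCast_eq_intCast_iff, hq]
    refine Int.modEq_iff_dvd.2 ?_
    push_cast
    rw [hw, ← dvd_neg, neg_sub]
    exact hlte
  -- the group relation
  obtain ⟨u, hu⟩ : ∃ u : Fin (k + 1) → (ZMod q)ˣ, u = fun j => α j * (β j)⁻¹ := ⟨_, rfl⟩
  have huq : ∀ j, u j ^ q = 1 := by
    intro j
    have h1 := dvd_sub_pow_of_dvd_sub (R := ℤ) (p := p) (hpy j) w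
    have h2 : ((y j : ZMod q)) ^ q = (y0 j : ZMod q) ^ q := by
      have h3 : ((y j ^ q : ℤ) : ZMod q) = ((y0 j ^ q : ℤ) : ZMod q) := by
        rw [ZMod.intCast_eq_intCast_iff]
        refine Int.modEq_iff_dvd.2 ?_
        rw [hq]
        push_cast
        rw [← dvd_neg, neg_sub]
        exact dvd_trans (pow_dvd_pow _ (Nat.le_succ w)) h1
      exact_mod_cast h3
    have h3 : α j ^ q = β j ^ q := by
      apply Units.ext
      rw [Units.val_pow_eq_pow_val, Units.val_pow_eq_pow_val, hα, hβ, h2]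
    rw [hu]
    simp only [mul_pow, inv_pow, h3, mul_inv_cancel]
  have hrel0 : (∏ j ∈ J, α j ^ ξ' j) * ∏ j ∈ Jᶜ, β j ^ ξ' j =
      (∏ j ∈ Jᶜ, α j ^ ξ' j) * ∏ j ∈ J, β j ^ ξ' j := by
    apply Units.ext
    push_cast
    simp only [hα, hβ]
    have := hAA
    rw [hA, hA0] at this
    push_cast at this
    exact this
  have hrelJ : ∏ j ∈ J, u j ^ ξ' j = ∏ j ∈ Jᶜ, u j ^ ξ' j := by
    rw [hu]
    simp only [mul_pow, prod_mul_distrib, inv_pow, prod_inv_distrib]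
    rw [mul_inv_eq_iff_eq_mul, mul_assoc, mul_comm _ (∏ j ∈ J, β j ^ ξ' j), ← mul_assoc,
      eq_mul_inv_iff_mul_eq]
    exact hrel0
  have hrel : ∏ j ∈ J', u j ^ ξ' j = ∏ j ∈ J'ᶜ, u j ^ ξ' j := by
    rcases hJJ with h | h
    · rw [h]; exact hrelJ
    · rw [h, compl_compl]; exact hrelJ.symm
  have hfin := sol_grp u ξ' J' j0 hJ' q g l hq1 huq hg hrel
  have hfin2 : α j0 = (β j0 * ∏ j ∈ univ.erase j0, (β j)⁻¹ ^ n j) *
      ∏ j ∈ univ.erase j0, α j ^ n j := by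
    have h1 : α j0 = β j0 * u j0 := by
      rw [hu]
      simp only [mul_comm (α j0), mul_inv_cancel_left]
    rw [h1, hfin, mul_assoc, ← prod_mul_distrib, hn]
    congr 1
    refine prod_congr rfl fun j _ => ?_
    rw [hu, ← mul_pow, mul_comm ((β j)⁻¹)]
  push_cast
  rw [hc, ← hα j0]
  have h9 : ((∏ j ∈ univ.erase j0, (y j : ZMod q) ^ n j)) =
      ((∏ j ∈ univ.erase j0, α j ^ n j : (ZMod q)ˣ) : ZMod q) := by
    push_cast
    simp only [hα]
  rw [h9, ← Units.val_mul, ← hfin2]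

end Pool.SHA
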