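import Pool.Agent.H45.SHA.Stmts

/-!
# SHA, module TL: few tuples of free primes
-/

set_option autoImplicit false

namespace Pool.SHA

open Finset Pool.Agent.H98.ABCR

/-- one free prime put into the known set -/
private lemma tl_real {k : ℕ} {X h0 Λ : ℝ} {K : Finset ℕ} {i : Fin 3} {p : ℕ}
    {e : Fin 3 → Fin (k + 1) → ℕ} {q : Fin (k + 1) → ℕ} (h : Real1 X h0 Λ K i p e q)
    (j : Fin (k + 1)) :
    Real1 X h0 Λ (insert (q j) K) i p (fun s l => e s (j.succAbove l))
      (fun l => q (j.succAbove l)) := by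
  obtain ⟨h1, h2, v, h3, h4, h5, h6, h7⟩ := h
  refine ⟨h1.comp j.succAbove_right_injective, fun l => ⟨(h2 _).1, (h2 _).2.1, ?_⟩,
    v, h3, h4, h5, h6, fun s hs => ?_⟩
  · rw [mem_insert, not_or]
    exact ⟨fun hh => j.succAbove_ne l (h1 hh), (h2 _).2.2⟩
  · obtain ⟨u, hu1, hu2⟩ := h7 s hs
    refine ⟨u * q j ^ e s j, ?_, ?_⟩
    · intro x hx
      obtain ⟨hx1, hx2, hx3⟩ := Nat.mem_primeFactors.1 hx
      have hu0 : u ≠ 0 := left_ne_zero_of_mul hx3
      rw [mem_insert]
      rcases (Nat.Prime.dvd_mul hx1).1 hx2 with hx4 | hx4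
      · exact Or.inr (hu1 (Nat.mem_primeFactors.2 ⟨hx1, hx4, hu0⟩))
      · exact Or.inl ((Nat.prime_dvd_prime_iff_eq hx1 (h2 j).1).1 (hx1.dvd_of_dvd_pow hx4))
    · rw [hu2, Fin.prod_univ_succAbove _ j, mul_assoc]

/-- TL -/
theorem tl_thm (hT : S_TLD) : S_TL := by
  classical
  intro k
  induction k with
  | zero =>
    intro ε hε
    refine ⟨1, 1, le_rfl, le_rfl, ?_⟩
    intro X h0 Λ W K i p e Q hX _ _ _ _ _ _ _ _ _ _
    have h1 : Q.card ≤ 1 := card_le_one_of_subsingleton Q
    calc (Q.card : ℝ) ≤ 1 := by exact_mod_cast h1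
      _ ≤ X ^ ε := Real.one_le_rpow hX hε.le
  | succ k ih =>
    intro ε hε
    obtain ⟨A1, X1, hA1, hX1, H1⟩ := hT k (ε / 4) (by linarith)
    obtain ⟨A2, X2, hA2, hX2, H2⟩ := ih (ε / 4) (by linarith)
    refine ⟨max A1 A2, max (max X1 X2) (max (Real.exp 1) ((((k : ℝ) + 1) * ((k : ℝ) + 1)) ^ (2 / ε))),
      le_trans hA1 (le_max_left _ _), le_trans hX1 (le_trans (le_max_left _ _) (le_max_left _ _)),
      ?_⟩
    intro X h0 Λ W K i p e Q hX h01 h0X hW hKW hKp hpK hpX he hΛ hQ
    have hXX1 : X1 ≤ X := le_trans (le_trans (le_max_left _ _) (le_max_left _ _)) hX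
    have hXX2 : X2 ≤ X := le_trans (le_trans (le_max_right _ _) (le_max_left _ _)) hX
    have hXe : Real.exp 1 ≤ X := le_trans (le_trans (le_max_left _ _) (le_max_right _ _)) hX
    have hXk : (((k : ℝ) + 1) * ((k : ℝ) + 1)) ^ (2 / ε) ≤ X :=
      le_trans (le_trans (le_max_right _ _) (le_max_right _ _)) hX
    have hX0 : 0 < X := lt_of_lt_of_le (Real.exp_pos 1) hXe
    have hlog : 1 ≤ Real.log X := by
      rw [Real.le_log_iff_exp_le hX0]
      exact hXe
    have hpos : 0 ≤ Real.log X + W * Real.log (h0 * Real.log X) := by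
      have h1 : 0 ≤ Real.log (h0 * Real.log X) := Real.log_nonneg (by nlinarith)
      have h2 : (0 : ℝ) ≤ W := Nat.cast_nonneg _
      nlinarith [mul_nonneg h2 h1]
    have hΛ1 : A1 * (Real.log X + W * Real.log (h0 * Real.log X)) ≤ Λ :=
      le_trans (mul_le_mul_of_nonneg_right (le_max_left _ _) hpos) hΛ
    have hΛ2 : A2 * (Real.log X + W * Real.log (h0 * Real.log X)) ≤ Λ :=
      le_trans (mul_le_mul_of_nonneg_right (le_max_right _ _) hpos) hΛ
    -- a maximal subfamily with distinct primes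
    obtain ⟨D, hD, hDmax⟩ := exists_max_image
      (Q.powerset.filter fun D => ∀ q ∈ D, ∀ q' ∈ D, ∀ j j', q j = q' j' → q = q' ∧ j = j')
      card ⟨∅, by simp⟩
    rw [mem_filter, mem_powerset] at hD
    obtain ⟨hDQ, hDd⟩ := hD
    have hDc : (D.card : ℝ) ≤ X ^ (ε / 4) :=
      H1 X h0 Λ W K i p e D hXX1 h01 h0X hW (by omega) hKp hpK hpX he hΛ1
        (fun q hq => hQ q (hDQ hq)) hDd
    have hcov : ∀ q ∈ Q, ∃ q' ∈ D, ∃ j j', q j = q' j' := by
      intro q hq
      by_contra hcon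
      push Not at hcon
      have hqD : q ∉ D := fun h => hcon q h 0 0 rfl
      have h1 := hDmax (insert q D) (by
        rw [mem_filter, mem_powerset]
        refine ⟨insert_subset hq hDQ, ?_⟩
        intro a ha b hb j j' hab
        rw [mem_insert] at ha hb
        rcases ha with ha | ha <;> rcases hb with hb | hb
        · rw [ha, hb] at hab
          exact ⟨ha.trans hb.symm, (hQ q hq).1 hab⟩
        · rw [ha] at hab
          exact absurd hab (hcon b hb j j')
        · rw [hb] at hab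
          exact absurd hab.symm (hcon a ha j' j)
        · exact hDd a ha b hb j j' hab)
      rw [card_insert_of_notMem hqD] at h1
      omega
    have hfib : ∀ q' ∈ D, ∀ j j', ((Q.filter fun q => q j = q' j').card : ℝ) ≤ X ^ (ε / 4) := by
      intro q' hq' j j'
      have hinj : Set.InjOn (fun (q : Fin (k + 1) → ℕ) => fun l => q (j.succAbove l))
          (Q.filter fun q => q j = q' j' : Finset (Fin (k + 1) → ℕ)) := by
        intro a ha b hb hab
        have ha' := (mem_filter.1 (mem_coe.1 ha)).2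
        have hb' := (mem_filter.1 (mem_coe.1 hb)).2
        funext l
        rcases Fin.eq_self_or_eq_succAbove j l with h | ⟨l', h⟩
        · rw [h, ha', hb']
        · rw [h]
          exact congrFun hab l'
      rw [← card_image_of_injOn hinj]
      have hπ := (hQ q' (hDQ hq')).2.1 j'
      refine H2 X h0 Λ W (insert (q' j') K) i p (fun s l => e s (j.succAbove l)) _ hXX2 h01 h0X hW
        ?_ ?_ (mem_insert_of_mem hpK) hpX ?_ hΛ2 ?_
      · have := card_insert_le (q' j') K
        omega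
      · intro x hx
        rcases mem_insert.1 hx with h | h
        · rw [h]; exact hπ.1
        · exact hKp x h
      · intro l
        obtain ⟨s, h1, h2, h3⟩ := he (j.succAbove l)
        exact ⟨s, h1, h2, h3⟩
      · intro x hx
        obtain ⟨q, hq, rfl⟩ := mem_image.1 hx
        obtain ⟨hq1, hq2⟩ := mem_filter.1 hq
        have := tl_real (hQ q hq1) j
        rw [hq2] at this
        exact this
    -- counting
    have hsub : Q ⊆ (D ×ˢ ((univ : Finset (Fin (k + 1))) ×ˢ (univ : Finset (Fin (k + 1))))).biUnion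
        (fun x => Q.filter fun q => q x.2.1 = x.1 x.2.2) := by
      intro q hq
      obtain ⟨q', hq', j, j', h⟩ := hcov q hq
      rw [mem_biUnion]
      exact ⟨(q', j, j'), by simp [hq'], mem_filter.2 ⟨hq, h⟩⟩
    have hcard : Q.card ≤ (D.card * ((k + 1) * (k + 1))) * ⌊X ^ (ε / 4)⌋₊ := by
      refine le_trans (card_le_card hsub) ?_
      refine le_trans (card_biUnion_le_card_mul _ _ ⌊X ^ (ε / 4)⌋₊ ?_) ?_
      · intro x hx
        rw [mem_product] at hx
        exact Nat.le_floor (hfib x.1 hx.1 x.2.1 x.2.2)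
      · rw [card_product, card_product, card_univ, Fintype.card_fin]
    have hXε : 0 ≤ X ^ (ε / 4) := Real.rpow_nonneg hX0.le _
    have hk2 : ((k : ℝ) + 1) * ((k : ℝ) + 1) ≤ X ^ (ε / 2) := by
      have h1 : (0 : ℝ) ≤ ((k : ℝ) + 1) * ((k : ℝ) + 1) := by positivity
      have h2 := Real.rpow_le_rpow (Real.rpow_nonneg h1 _) hXk (by positivity : 0 ≤ ε / 2)
      rwa [← Real.rpow_mul h1, show 2 / ε * (ε / 2) = 1 by field_simp, Real.rpow_one] at h2
    calc (Q.card : ℝ) ≤ (((D.card * ((k + 1) * (k + 1))) * ⌊X ^ (ε / 4)⌋₊ : ℕ) : ℝ) := by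
          exact_mod_cast hcard
      _ = ((D.card : ℝ) * (((k : ℝ) + 1) * ((k : ℝ) + 1))) * (⌊X ^ (ε / 4)⌋₊ : ℝ) := by
          push_cast
          ring
      _ ≤ (X ^ (ε / 4) * X ^ (ε / 2)) * X ^ (ε / 4) := by
          refine mul_le_mul (mul_le_mul hDc hk2 (by positivity) hXε) (Nat.floor_le hXε)
            (Nat.cast_nonneg _) (mul_nonneg hXε (Real.rpow_nonneg hX0.le _))
      _ = X ^ ε := by
          rw [← Real.rpow_add hX0, ← Real.rpow_add hX0]
          ring_nf

end Pool.SHA
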